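import Pool.Agent.Lib.MP_a55e6f_al.Uni.Defs

/-!
# MP_a55e6f_al (S02584): common elementary lemmas about the definitions of `Defs.lean`
-/

set_option autoImplicit false

universe u

open MvPolynomial

attribute [local instance 100] LieRing.ofAssociativeRing

namespace Pool.Agent.A55u

/-! ## Homogeneous elements and components -/

section hom
variable {k M : Type u} [Field k]

theorem comp_coeff (z : M → ℕ) (n : ℕ) (b : MonoidAlgebra k M) (w : M) :
    (comp z n b).coeff w = if z w = n then b.coeff w else 0 := by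
  rw [comp, proj_coeff]
  split_ifs <;> rfl

theorem comp_coeff_of_eq {z : M → ℕ} {n : ℕ} (b : MonoidAlgebra k M) {w : M} (h : z w = n) :
    (comp z n b).coeff w = b.coeff w := by classical rw [comp_coeff, if_pos h]

theorem comp_coeff_of_ne {z : M → ℕ} {n : ℕ} (b : MonoidAlgebra k M) {w : M} (h : z w ≠ n) :
    (comp z n b).coeff w = 0 := by classical rw [comp_coeff, if_neg h]

theorem hom_zero (z : M → ℕ) (n : ℕ) : Hom z n (0 : MonoidAlgebra k M) := (homSub k z n).zero_mem

theorem Hom.add {z : M → ℕ} {n : ℕ} {a b : MonoidAlgebra k M} (ha : Hom z n a) (hb : Hom z n b) :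
    Hom z n (a + b) := (homSub k z n).add_mem ha hb

theorem Hom.neg {z : M → ℕ} {n : ℕ} {a : MonoidAlgebra k M} (ha : Hom z n a) :
    Hom z n (-a) := (homSub k z n).neg_mem ha

theorem Hom.sub {z : M → ℕ} {n : ℕ} {a b : MonoidAlgebra k M} (ha : Hom z n a) (hb : Hom z n b) :
    Hom z n (a - b) := (homSub k z n).sub_mem ha hb

theorem Hom.smul {z : M → ℕ} {n : ℕ} {a : MonoidAlgebra k M} (c : k) (ha : Hom z n a) :
    Hom z n (c • a) := (homSub k z n).smul_mem c ha

theorem Hom.sum {z : M → ℕ} {n : ℕ} {I : Type u} {s : Finset I} {f : I → MonoidAlgebra k M}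
    (h : ∀ i ∈ s, Hom z n (f i)) : Hom z n (∑ i ∈ s, f i) := (homSub k z n).sum_mem h

theorem hom_single {z : M → ℕ} {w : M} (c : k) : Hom z (z w) (MonoidAlgebra.single w c) := by
  classical
  intro w' hw'
  by_contra hne
  apply hw'
  rw [MonoidAlgebra.coeff_single, Finsupp.single_apply, if_neg]
  rintro rfl; exact hne rfl

theorem comp_hom (z : M → ℕ) (n : ℕ) (b : MonoidAlgebra k M) : Hom z n (comp z n b) := by
  classical
  intro w hw
  by_contra hne
  exact hw (comp_coeff_of_ne b hne)

theorem Hom.comp_eq {z : M → ℕ} {n : ℕ} {b : MonoidAlgebra k M} (h : Hom z n b) :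
    comp z n b = b := by
  classical
  ext w
  rw [comp_coeff]
  split_ifs with h1
  · rfl
  · by_contra hne
    exact h1 (h w (Ne.symm hne))

theorem Hom.comp_ne {z : M → ℕ} {n m : ℕ} {b : MonoidAlgebra k M} (h : Hom z n b) (hnm : n ≠ m) :
    comp z m b = 0 := by
  classical
  ext w
  rw [comp_coeff]
  split_ifs with h1
  · by_contra hne
    exact hnm ((h w hne).symm.trans h1)
  · rfl

theorem Hom.eq_zero_or_eq {z : M → ℕ} {n m : ℕ} {b : MonoidAlgebra k M} (h : Hom z n b)
    (h' : Hom z m b) : b = 0 ∨ n = m := by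
  by_cases hnm : n = m
  · exact Or.inr hnm
  · left
    rw [← h'.comp_eq, h.comp_ne hnm]

theorem hom_iff_comp_eq {z : M → ℕ} {n : ℕ} {b : MonoidAlgebra k M} :
    Hom z n b ↔ comp z n b = b := ⟨Hom.comp_eq, fun h => h ▸ comp_hom z n b⟩

/-- `b` is the sum of its components, for any bound `N` on the degrees. -/
theorem sum_comp {z : M → ℕ} {N : ℕ} {b : MonoidAlgebra k M}
    (h : ∀ w, b.coeff w ≠ 0 → z w < N) : b = ∑ n ∈ Finset.range N, comp z n b := by
  classical
  ext w
  rw [MonoidAlgebra.coeff_sum, Finsupp.finsetSum_apply]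
  simp only [comp_coeff]
  rw [Finset.sum_ite_eq]
  split_ifs with h1
  · rfl
  · by_contra hne
    exact h1 (Finset.mem_range.2 (h w hne))

theorem le_degOf {z : M → ℕ} {b : MonoidAlgebra k M} {w : M} (h : b.coeff w ≠ 0) :
    z w ≤ degOf z b := Finset.le_sup (f := z) (Finsupp.mem_support_iff.2 h)

theorem degOf_le {z : M → ℕ} {b : MonoidAlgebra k M} {n : ℕ}
    (h : ∀ w, b.coeff w ≠ 0 → z w ≤ n) : degOf z b ≤ n :=
  Finset.sup_le fun w hw => h w (Finsupp.mem_support_iff.1 hw)

theorem sum_comp_degOf (z : M → ℕ) (b : MonoidAlgebra k M) :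
    b = ∑ n ∈ Finset.range (degOf z b + 1), comp z n b :=
  sum_comp fun _ h => Nat.lt_succ_of_le (le_degOf h)

theorem comp_degOf_ne_zero {z : M → ℕ} {b : MonoidAlgebra k M} (h : b ≠ 0) :
    comp z (degOf z b) b ≠ 0 := by
  have hne : b.coeff.support.Nonempty := by
    rw [Finset.nonempty_iff_ne_empty, Ne, Finsupp.support_eq_empty]
    intro h0
    exact h (MonoidAlgebra.coeff_eq_zero.1 h0)
  obtain ⟨w, hw, hw2⟩ := Finset.exists_mem_eq_sup _ hne z
  intro h0
  have : (comp z (degOf z b) b).coeff w = 0 := by rw [h0]; rfl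
  rw [comp_coeff_of_eq b (show z w = degOf z b from hw2.symm)] at this
  exact (Finsupp.mem_support_iff.1 hw) this

theorem degOf_eq_zero_iff {z : M → ℕ} {b : MonoidAlgebra k M} :
    degOf z b = 0 ↔ Hom z 0 b :=
  ⟨fun h w hw => Nat.le_zero.1 (h ▸ le_degOf hw), fun h => Nat.le_zero.1 (degOf_le fun w hw =>
    (h w hw).le)⟩

theorem Hom.degOf_le {z : M → ℕ} {n : ℕ} {b : MonoidAlgebra k M} (h : Hom z n b) :
    degOf z b ≤ n := Pool.Agent.A55u.degOf_le fun w hw => (h w hw).le

/-- degree of a difference -/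
theorem coeff_sub_ne_zero {a b : MonoidAlgebra k M} {w : M} (h : (a - b).coeff w ≠ 0) :
    a.coeff w ≠ 0 ∨ b.coeff w ≠ 0 := by
  by_contra hne
  push Not at hne
  exact h (by simp [hne.1, hne.2])

theorem coeff_add_ne_zero {a b : MonoidAlgebra k M} {w : M} (h : (a + b).coeff w ≠ 0) :
    a.coeff w ≠ 0 ∨ b.coeff w ≠ 0 := by
  by_contra hne
  push Not at hne
  exact h (by simp [hne.1, hne.2])

end hom

section mul
variable {k M : Type u} [Field k] [Monoid M]

/-- every word of a product is a product of words of the factors -/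
theorem exists_of_coeff_mul_ne_zero {a b : MonoidAlgebra k M} {w : M}
    (h : (a * b).coeff w ≠ 0) :
    ∃ u v, a.coeff u ≠ 0 ∧ b.coeff v ≠ 0 ∧ u * v = w := by
  classical
  by_contra hne
  push Not at hne
  apply h
  rw [MonoidAlgebra.coeff_mul]
  refine Finset.sum_eq_zero fun u hu => Finset.sum_eq_zero fun v hv => ?_
  refine if_neg ?_
  exact hne u v (Finsupp.mem_support_iff.1 hu) (Finsupp.mem_support_iff.1 hv)

theorem Hom.mul {z : M → ℕ} (hz : IsAdd z) {n m : ℕ} {a b : MonoidAlgebra k M} (ha : Hom z n a)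
    (hb : Hom z m b) : Hom z (n + m) (a * b) := by
  intro w hw
  obtain ⟨u, v, hu, hv, rfl⟩ := exists_of_coeff_mul_ne_zero hw
  rw [hz.map_mul, ha u hu, hb v hv]

theorem hom_one {z : M → ℕ} (hz : IsAdd z) : Hom z 0 (1 : MonoidAlgebra k M) := by
  have := hom_single (k := k) (z := z) (w := 1) 1
  rwa [hz.map_one] at this

theorem Hom.comp_mul_left {z : M → ℕ} (hz : IsAdd z) {n : ℕ} {a : MonoidAlgebra k M}
    (ha : Hom z n a) (b : MonoidAlgebra k M) (m : ℕ) :
    comp z (n + m) (a * b) = a * comp z m b := by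
  have h := sum_comp_degOf z b
  conv_lhs => rw [h]
  rw [Finset.mul_sum, map_sum]
  have h2 : ∀ i ∈ Finset.range (degOf z b + 1), comp z (n + m) (a * comp z i b)
      = if i = m then a * comp z m b else 0 := by
    intro i _
    split_ifs with him
    · subst him
      exact (ha.mul hz (comp_hom z i b)).comp_eq
    · exact (ha.mul hz (comp_hom z i b)).comp_ne (by omega)
  rw [Finset.sum_congr rfl h2, Finset.sum_ite_eq']
  split_ifs with h3
  · rfl
  · have : comp z m b = 0 := by
      classical
      ext w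
      rw [comp_coeff]
      split_ifs with h4
      · by_contra hne
        exact h3 (Finset.mem_range.2 (h4 ▸ Nat.lt_succ_of_le (le_degOf hne)))
      · rfl
    rw [this, mul_zero]

theorem Hom.comp_mul_right {z : M → ℕ} (hz : IsAdd z) {m : ℕ} (a : MonoidAlgebra k M)
    {b : MonoidAlgebra k M} (hb : Hom z m b) (n : ℕ) :
    comp z (n + m) (a * b) = comp z n a * b := by
  have h := sum_comp_degOf z a
  conv_lhs => rw [h]
  rw [Finset.sum_mul, map_sum]
  have h2 : ∀ i ∈ Finset.range (degOf z a + 1), comp z (n + m) (comp z i a * b)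
      = if i = n then comp z n a * b else 0 := by
    intro i _
    split_ifs with him
    · subst him
      exact ((comp_hom z i a).mul hz hb).comp_eq
    · exact ((comp_hom z i a).mul hz hb).comp_ne (by omega)
  rw [Finset.sum_congr rfl h2, Finset.sum_ite_eq']
  split_ifs with h3
  · rfl
  · have : comp z n a = 0 := by
      classical
      ext w
      rw [comp_coeff]
      split_ifs with h4
      · by_contra hne
        exact h3 (Finset.mem_range.2 (h4 ▸ Nat.lt_succ_of_le (le_degOf hne)))
      · rfl
    rw [this, zero_mul]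

/-- product of elements with bounded degrees: bound -/
theorem mul_bound {z : M → ℕ} (hz : IsAdd z) {n m : ℕ} {a b : MonoidAlgebra k M}
    (ha : ∀ w, a.coeff w ≠ 0 → z w ≤ n) (hb : ∀ w, b.coeff w ≠ 0 → z w ≤ m) :
    ∀ w, (a * b).coeff w ≠ 0 → z w ≤ n + m := by
  intro w hw
  obtain ⟨u, v, hu, hv, rfl⟩ := exists_of_coeff_mul_ne_zero hw
  rw [hz.map_mul]
  exact Nat.add_le_add (ha u hu) (hb v hv)

/-- product of elements with bounded degrees: top component -/
theorem comp_mul_top {z : M → ℕ} (hz : IsAdd z) {n m : ℕ} {a b : MonoidAlgebra k M}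
    (ha : ∀ w, a.coeff w ≠ 0 → z w ≤ n) (hb : ∀ w, b.coeff w ≠ 0 → z w ≤ m) :
    comp z (n + m) (a * b) = comp z n a * comp z m b := by
  have e : a = comp z n a + (a - comp z n a) := by abel
  have hlow : ∀ w, (a - comp z n a).coeff w ≠ 0 → z w < n := by
    classical
    intro w hw
    rw [MonoidAlgebra.coeff_sub, Finsupp.sub_apply, comp_coeff] at hw
    split_ifs at hw with h1
    · simp at hw
    · rw [sub_zero] at hw
      exact lt_of_le_of_ne (ha w hw) h1
  have h0 : comp z (n + m) ((a - comp z n a) * b) = 0 := by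
    classical
    ext w
    rw [comp_coeff]
    split_ifs with h1
    · by_contra hne
      obtain ⟨u, v, hu, hv, rfl⟩ := exists_of_coeff_mul_ne_zero hne
      rw [hz.map_mul] at h1
      have := hlow u hu
      have := hb v hv
      omega
    · rfl
  conv_lhs => rw [e]
  rw [add_mul, map_add, h0, add_zero, (comp_hom z n a).comp_mul_left hz]

end mul

/-! ## `iota` -/

section iota
variable {k M : Type u} [Field k] [Monoid M]

omit [Monoid M] in
theorem iota_single (w : M) (c : k) : iota (MonoidAlgebra.single w c) = c • (X w : MvPolynomial M k) := by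
  simp [iota]

theorem iota_of (w : M) : iota (MonoidAlgebra.of k M w) = (X w : MvPolynomial M k) := by
  rw [MonoidAlgebra.of_apply, iota_single, one_smul]

omit [Monoid M] in
theorem iota_coeff_single (b : MonoidAlgebra k M) (w : M) :
    (iota b).coeff (Finsupp.single w 1) = b.coeff w := by
  classical
  induction b using MonoidAlgebra.induction_linear with
  | zero => simp
  | add a b ha hb => simp [ha, hb]
  | single v c =>
    rw [iota_single, coeff_smul, coeff_X, MonoidAlgebra.coeff_single, Finsupp.single_apply]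
    by_cases h : v = w
    · subst h; simp
    · rw [if_neg h, if_neg]
      · simp
      · intro h2
        exact h ((Finsupp.single_left_inj one_ne_zero).1 h2)

omit [Monoid M] in
theorem iota_coeff_ne_zero {b : MonoidAlgebra k M} {m : M →₀ ℕ} (h : (iota b).coeff m ≠ 0) :
    ∃ w, m = Finsupp.single w 1 ∧ b.coeff w ≠ 0 := by
  classical
  have h1 : ∃ w, m = Finsupp.single w 1 := by
    by_contra hne
    push Not at hne
    apply h
    induction b using MonoidAlgebra.induction_linear with
    | zero => simp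
    | add a b ha hb => 
      by_cases h1 : (iota a).coeff m = 0 <;> by_cases h2 : (iota b).coeff m = 0 <;>
        simp_all
    | single v c =>
      rw [iota_single, coeff_smul, coeff_X, if_neg]
      · simp
      · intro h2; exact hne v h2.symm
  obtain ⟨w, rfl⟩ := h1
  exact ⟨w, rfl, by rwa [iota_coeff_single] at h⟩

omit [Monoid M] in
theorem iota_injective : Function.Injective (iota : MonoidAlgebra k M →ₗ[k] MvPolynomial M k) := by
  intro a b h
  ext w
  rw [← iota_coeff_single a, h, iota_coeff_single]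

end iota

/-! ## `zd`, `yd` -/

section zd
variable {Y : Type u}

theorem isAdd_zd : IsAdd (zd (Y := Y)) := ⟨rfl, fun a b => by simp [zd, FreeMonoid.toList_mul]⟩
theorem isAdd_yd : IsAdd (yd (Y := Y)) := ⟨rfl, fun a b => by simp [yd, FreeMonoid.toList_mul]⟩

@[simp] theorem zd_one : zd (1 : FreeMonoid (Y ⊕ Y)) = 0 := rfl
@[simp] theorem yd_one : yd (1 : FreeMonoid (Y ⊕ Y)) = 0 := rfl
@[simp] theorem zd_mul (a b : FreeMonoid (Y ⊕ Y)) : zd (a * b) = zd a + zd b := isAdd_zd.map_mul a b
@[simp] theorem yd_mul (a b : FreeMonoid (Y ⊕ Y)) : yd (a * b) = yd a + yd b := isAdd_yd.map_mul a b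
@[simp] theorem zd_inl (y : Y) : zd (FreeMonoid.of (Sum.inl y : Y ⊕ Y)) = 0 := rfl
@[simp] theorem zd_inr (y : Y) : zd (FreeMonoid.of (Sum.inr y : Y ⊕ Y)) = 1 := rfl
@[simp] theorem yd_inl (y : Y) : yd (FreeMonoid.of (Sum.inl y : Y ⊕ Y)) = 1 := rfl
@[simp] theorem yd_inr (y : Y) : yd (FreeMonoid.of (Sum.inr y : Y ⊕ Y)) = 0 := rfl

theorem zd_add_yd (w : FreeMonoid (Y ⊕ Y)) : zd w + yd w = w.length := by
  induction w using FreeMonoid.inductionOn' with
  | one => rfl
  | of_mul a w ih =>
    rw [zd_mul, yd_mul, FreeMonoid.length_mul]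
    rcases a with a | a <;> simp <;> omega

theorem eq_one_of_zd_yd (w : FreeMonoid (Y ⊕ Y)) (h1 : zd w = 0) (h2 : yd w = 0) : w = 1 := by
  have := zd_add_yd w
  rw [h1, h2] at this
  exact FreeMonoid.length_eq_zero.1 this.symm

end zd

/-! ## `ev`, letters, `FreeFam` -/

section ev
variable {k : Type u} [Field k]

theorem letter_eq_single {Y : Type u} (y : Y) :
    (letter k y : FA k Y) = MonoidAlgebra.single (FreeMonoid.of y) 1 := rfl

theorem algHom_ext_letter {Y Q : Type u} [Ring Q] [Algebra k Q] {f g : FA k Y →ₐ[k] Q}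
    (h : ∀ y, f (letter k y) = g (letter k y)) : f = g := by
  apply MonoidAlgebra.algHom_ext'
  · apply FreeMonoid.hom_eq
    intro y
    exact h y
  · ext

theorem map_ev {Y Q R : Type u} [Ring Q] [Algebra k Q] [Ring R] [Algebra k R] (f : Q →ₐ[k] R)
    (x : Y → Q) (p : FA k Y) : f (ev x p) = ev (fun y => f (x y)) p := by
  have : f.comp (ev (k := k) x) = ev (fun y => f (x y)) :=
    algHom_ext_letter fun y => by simp [ev_letter]
  exact DFunLike.congr_fun this p

theorem ev_comp_letter {I Y Q : Type u} [Ring Q] [Algebra k Q] (x : Y → Q) (f : I → Y) (p : FA k I) :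
    ev x (ev (fun i => letter k (f i)) p) = ev (fun i => x (f i)) p := by
  rw [map_ev]
  simp [ev_letter]

theorem ev_id {Y : Type u} (p : FA k Y) : ev (fun y => letter k y) p = p := by
  have : ev (k := k) (fun y => (letter k y : FA k Y)) = AlgHom.id k _ :=
    algHom_ext_letter fun y => by simp [ev_letter]
  exact DFunLike.congr_fun this p

theorem adjoin_letters (Y : Type u) : Algebra.adjoin k (Set.range (letter k : Y → FA k Y)) = ⊤ := by
  rw [eq_top_iff]
  intro p _
  rw [← ev_id p]
  have : ∀ p : FA k Y, ev (fun y => letter k y) p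
      ∈ Algebra.adjoin k (Set.range (letter k : Y → FA k Y)) := by
    intro p
    let f : Y → Algebra.adjoin k (Set.range (letter k : Y → FA k Y)) :=
      fun y => ⟨letter k y, Algebra.subset_adjoin ⟨y, rfl⟩⟩
    have h : (Algebra.adjoin k (Set.range (letter k : Y → FA k Y))).val (ev f p)
        = ev (fun y => letter k y) p := map_ev _ f p
    rw [← h]
    exact (ev f p).2
  exact this p

theorem range_ev {Y Q : Type u} [Ring Q] [Algebra k Q] (x : Y → Q) :
    (ev (k := k) x).range = Algebra.adjoin k (Set.range x) := by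
  rw [← Algebra.map_top, ← adjoin_letters, AlgHom.map_adjoin, ← Set.range_comp]
  congr 1
  ext q
  simp [ev_letter]

theorem ev_mem_adjoin {Y Q : Type u} [Ring Q] [Algebra k Q] (x : Y → Q) (p : FA k Y) :
    ev x p ∈ Algebra.adjoin k (Set.range x) := by
  rw [← range_ev]; exact ⟨p, rfl⟩

theorem exists_ev_of_mem_adjoin {Y Q : Type u} [Ring Q] [Algebra k Q] (x : Y → Q) {q : Q}
    (h : q ∈ Algebra.adjoin k (Set.range x)) : ∃ p : FA k Y, ev x p = q := by
  rw [← range_ev] at h; exact h

theorem ev_mem_of_mem {Y Q : Type u} [Ring Q] [Algebra k Q] {x : Y → Q} {S : Subalgebra k Q}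
    (h : ∀ y, x y ∈ S) (p : FA k Y) : ev x p ∈ S :=
  Algebra.adjoin_le (by rintro _ ⟨y, rfl⟩; exact h y) (ev_mem_adjoin x p)

/-- renaming letters by an injective map is injective -/
theorem ev_letter_injective {I Y : Type u} {f : I → Y} (hf : Function.Injective f) :
    Function.Injective (ev (k := k) (fun i => (letter k (f i) : FA k Y))) := by
  have h : ev (k := k) (fun i => (letter k (f i) : FA k Y))
      = MonoidAlgebra.mapDomainAlgHom k k (FreeMonoid.map f) := by
    apply algHom_ext_letter
    intro i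
    rw [ev_letter]
    simp [letter_eq_single]
  rw [h]
  have hinj : Function.Injective (FreeMonoid.map f) := by
    intro a b hab
    have : a.toList.map f = b.toList.map f := hab
    exact (List.map_injective_iff.2 hf) this
  exact MonoidAlgebra.mapDomain_injective hinj

theorem FreeFam.comp_injective {I J Q : Type u} [Ring Q] [Algebra k Q] {x : J → Q}
    (hx : FreeFam k x) {f : I → J} (hf : Function.Injective f) : FreeFam k (fun i => x (f i)) := by
  intro p q hpq
  rw [← ev_comp_letter x f p, ← ev_comp_letter x f q] at hpq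
  exact ev_letter_injective hf (hx hpq)

theorem letter_injective {Y : Type u} : Function.Injective (letter k : Y → FA k Y) := by
  intro a b h
  rw [letter_eq_single, letter_eq_single, MonoidAlgebra.single_left_inj one_ne_zero] at h
  exact FreeMonoid.of_injective h

theorem FreeFam.injective {I Q : Type u} [Ring Q] [Algebra k Q] {x : I → Q} (hx : FreeFam k x) :
    Function.Injective x := by
  intro a b h
  apply letter_injective (k := k)
  apply hx
  rw [ev_letter, ev_letter, h]

theorem FreeFam.map {I Q R : Type u} [Ring Q] [Algebra k Q] [Ring R] [Algebra k R] {x : I → Q}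
    (hx : FreeFam k x) {f : Q →ₐ[k] R} (hf : Function.Injective f) :
    FreeFam k (fun i => f (x i)) := by
  intro p q hpq
  rw [← map_ev, ← map_ev] at hpq
  exact hx (hf hpq)

theorem FreeFam.of_map {I Q R : Type u} [Ring Q] [Algebra k Q] [Ring R] [Algebra k R] {x : I → Q}
    {f : Q →ₐ[k] R} (hx : FreeFam k (fun i => f (x i))) : FreeFam k x := by
  intro p q hpq
  apply hx
  rw [← map_ev, ← map_ev, hpq]

/-- a free family, as a free set -/
theorem FreeFam.range {I Q : Type u} [Ring Q] [Algebra k Q] {x : I → Q} (hx : FreeFam k x) :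
    FreeFam k (Subtype.val : Set.range x → Q) := by
  have h := hx.comp_injective (f := fun q : Set.range x => q.2.choose) (by
    intro a b hab
    ext
    rw [← a.2.choose_spec, ← b.2.choose_spec]
    exact congrArg x hab)
  have h2 : (fun q : Set.range x => x q.2.choose) = Subtype.val := by
    ext q
    exact q.2.choose_spec
  rwa [h2] at h

end ev

end Pool.Agent.A55u
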