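import Mathlib

/-!
# MP_a55e6f_al (S02584): common definitions

See `Blueprint.md` for the paper proof and `Interfaces.lean` for the exact statements of the
modules. Do not change this file without asking helper23.
-/

set_option autoImplicit false

universe u

open MvPolynomial

attribute [local instance 100] LieRing.ofAssociativeRing

namespace Pool.Agent.A55u

/-! ## Monoid algebras and additive functions on the monoid -/

/-- `f` is additive on the monoid `M`. -/
structure IsAdd {M N : Type*} [Monoid M] [AddMonoid N] (f : M → N) : Prop where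
  map_one : f 1 = 0
  map_mul : ∀ a b, f (a * b) = f a + f b

section proj
variable {k M : Type u} [Field k]

open scoped Classical in
/-- Projection of `k[M]` onto the span of the `w : M` with `p w`. -/
noncomputable def proj (p : M → Prop) : MonoidAlgebra k M →ₗ[k] MonoidAlgebra k M where
  toFun b := .ofCoeff (b.coeff.filter p)
  map_add' b c := by ext w; simp [Finsupp.filter_apply]
  map_smul' r b := by ext w; simp [Finsupp.filter_apply]

open scoped Classical in
theorem proj_coeff (p : M → Prop) (b : MonoidAlgebra k M) (w : M) :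
    (proj p b).coeff w = if p w then b.coeff w else 0 := by
  simp [proj, Finsupp.filter_apply]

/-- `Hom z n b`: `b` is homogeneous of degree `n` for the degree function `z`. -/
def Hom (z : M → ℕ) (n : ℕ) (b : MonoidAlgebra k M) : Prop := ∀ w, b.coeff w ≠ 0 → z w = n

/-- The submodule of homogeneous elements of degree `n`. -/
def homSub (k : Type u) [Field k] {M : Type u} (z : M → ℕ) (n : ℕ) :
    Submodule k (MonoidAlgebra k M) where
  carrier := {b | Hom z n b}
  add_mem' := by
    intro a b ha hb w hw
    by_contra hne
    have h1 : a.coeff w = 0 := by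
      by_contra h; exact hne (ha w h)
    have h2 : b.coeff w = 0 := by
      by_contra h; exact hne (hb w h)
    exact hw (by simp [h1, h2])
  zero_mem' := by intro w hw; simp at hw
  smul_mem' := by
    intro c a ha w hw
    refine ha w fun h => hw ?_
    simp [h]

theorem mem_homSub {z : M → ℕ} {n : ℕ} {b : MonoidAlgebra k M} :
    b ∈ homSub k z n ↔ Hom z n b := Iff.rfl

/-- The projection onto the homogeneous component of degree `n`. -/
noncomputable def comp (z : M → ℕ) (n : ℕ) : MonoidAlgebra k M →ₗ[k] MonoidAlgebra k M :=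
  proj (fun w => z w = n)

/-- The degree of an element of `k[M]` for the degree function `z` (0 for `b = 0`). -/
noncomputable def degOf (z : M → ℕ) (b : MonoidAlgebra k M) : ℕ := b.coeff.support.sup z

end proj

/-! ## Pairs (B, G) with B the enveloping algebra of G -/

/-- `B` is (a copy of) the universal enveloping algebra of its Lie subalgebra `G`. -/
structure EnvPair {k B : Type u} [Field k] [Ring B] [Algebra k B] (G : LieSubalgebra k B) :
    Prop where
  gen : Algebra.adjoin k (G : Set B) = ⊤
  ext : ∀ (Q : Type u) [Ring Q] [Algebra k Q] (f : G →ₗ⁅k⁆ Q),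
    ∃ F : B →ₐ[k] Q, ∀ g : G, F (g : B) = f g

/-- `G` is graded for the degree function `z`. -/
def Graded {k M : Type u} [Field k] [Monoid M] (z : M → ℕ)
    (G : LieSubalgebra k (MonoidAlgebra k M)) : Prop :=
  ∀ n, ∀ g ∈ G, comp z n g ∈ G

/-! ## The polynomial model -/

section model
variable {k M : Type u} [Field k] [Monoid M]

/-- The linear map `w ↦ X w`. -/
noncomputable def iota : MonoidAlgebra k M →ₗ[k] MvPolynomial M k where
  toFun b := b.coeff.sum fun w c => c • (X w : MvPolynomial M k)
  map_add' a b := by
    rw [MonoidAlgebra.coeff_add]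
    exact Finsupp.sum_add_index' (by simp) (by intro w c d; rw [add_smul])
  map_smul' r a := by
    rw [MonoidAlgebra.coeff_smul, Finsupp.sum_smul_index' (by simp), Finsupp.smul_sum]
    simp [smul_smul]

/-- `Pi f g = ∑ ∂_w f * ∂_w' g * X (w * w')`. -/
noncomputable def Pi (f g : MvPolynomial M k) : MvPolynomial M k :=
  mkDerivation k (fun w' => mkDerivation k (fun w => (X (w * w') : MvPolynomial M k)) f) g

/-- The weight `κ(m) = ∑_{w ∈ m} (1 - a w)` of a monomial. -/
noncomputable def kap (a : M → ℚ) (m : M →₀ ℕ) : ℚ := m.sum fun w n => (n : ℚ) * (1 - a w)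

/-- Polynomials all of whose monomials have weight at most `r`. -/
def Fil (k : Type u) [Field k] {M : Type u} (a : M → ℚ) (r : ℚ) :
    Submodule k (MvPolynomial M k) where
  carrier := {f | ∀ m, f.coeff m ≠ 0 → m.sum (fun w n => (n : ℚ) * (1 - a w)) ≤ r}
  add_mem' := by
    intro f g hf hg m hm
    by_contra hne
    have h1 : f.coeff m = 0 := by
      by_contra h; exact hne (hf m h)
    have h2 : g.coeff m = 0 := by
      by_contra h; exact hne (hg m h)
    exact hm (by simp [h1, h2])
  zero_mem' := by intro m hm; simp at hm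
  smul_mem' := by
    intro c f hf m hm
    refine hf m fun h => hm ?_
    simp [h]

omit [Monoid M] in
theorem mem_Fil {a : M → ℚ} {r : ℚ} {f : MvPolynomial M k} :
    f ∈ Fil k a r ↔ ∀ m, f.coeff m ≠ 0 → kap a m ≤ r := Iff.rfl

/-- The properties of the map `E : B → S` of module R. -/
structure IsRep (G : LieSubalgebra k (MonoidAlgebra k M))
    (E : MonoidAlgebra k M →ₗ[k] MvPolynomial M k) : Prop where
  one : E 1 = 1
  mem : ∀ g ∈ G, E g = iota g
  /-- the linear part of `E b` is `iota b` up to a multiple of `X 1` -/
  lin : ∀ b w, w ≠ 1 → (E b).coeff (Finsupp.single w 1) = b.coeff w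
  mul : ∀ a : M → ℚ, IsAdd a → ∀ r r' b b', E b ∈ Fil k a r → E b' ∈ Fil k a r' →
    E (b * b') - E b * E b' - Pi (E b) (E b') ∈ Fil k a (r + r' - 2)
  hom : ∀ z : M → ℕ, IsAdd z → Graded z G → ∀ n b, Hom z n b →
    ∀ m, (E b).coeff m ≠ 0 → m.sum (fun w i => i * z w) = n

end model

/-! ## Sorted monomials -/

/-- The product of the `x j`, `j ∈ s`, in increasing order of `j`. -/
noncomputable def mono {Q J : Type u} [Monoid Q] [LinearOrder J] (x : J → Q) (s : Multiset J) : Q :=
  ((s.sort (· ≤ ·)).map x).prod

/-! ## Free algebras as monoid algebras, letters, free families -/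

/-- The free associative algebra on `Y`. -/
abbrev FA (k Y : Type*) [Field k] := MonoidAlgebra k (FreeMonoid Y)

/-- The letter `y` as an element of `FA k Y`. -/
noncomputable def letter (k : Type*) [Field k] {Y : Type*} (y : Y) : FA k Y :=
  MonoidAlgebra.of k (FreeMonoid Y) (FreeMonoid.of y)

/-- The algebra map from the free algebra with given values of the letters. -/
noncomputable def ev {k Y Q : Type*} [Field k] [Ring Q] [Algebra k Q] (x : Y → Q) :
    FA k Y →ₐ[k] Q :=
  MonoidAlgebra.lift k Q (FreeMonoid Y) (FreeMonoid.lift x)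

theorem ev_letter {k Y Q : Type*} [Field k] [Ring Q] [Algebra k Q] (x : Y → Q) (y : Y) :
    ev (k := k) x (letter k y) = x y := by
  simp [ev, letter]

/-- The family `x` freely generates a free subalgebra. -/
def FreeFam (k : Type*) [Field k] {I Q : Type*} [Ring Q] [Algebra k Q] (x : I → Q) : Prop :=
  Function.Injective (ev (k := k) x)

/-- Degree with `dg 0 = 0` and `dg u = 1 + (length of the longest word of u)` for `u ≠ 0`. -/
noncomputable def dg {k Y : Type*} [Field k] (u : FA k Y) : ℕ :=
  u.coeff.support.sup (fun w => w.length + 1)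

/-- The subalgebra `k<Y'>` of `k<Y>`. -/
noncomputable def subA (k : Type u) [Field k] {Y : Type u} (Y' : Set Y) : Subalgebra k (FA k Y) :=
  Algebra.adjoin k (letter k '' Y')

/-! ## The double `B = k<Y ⊔ Z>` -/

/-- The double of `FA k Y`: `Sum.inl y` is the letter `y`, `Sum.inr y` is the letter `z_y`. -/
abbrev BA (k Y : Type u) [Field k] := FA k (Y ⊕ Y)

/-- Number of `z` letters of a word. -/
def zd {Y : Type u} (w : FreeMonoid (Y ⊕ Y)) : ℕ := w.toList.countP (fun c => c.isRight)

/-- Number of `y` letters of a word. -/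
def yd {Y : Type u} (w : FreeMonoid (Y ⊕ Y)) : ℕ := w.toList.countP (fun c => c.isLeft)

/-- The embedding `k<Y> → k<Y ⊔ Z>`. -/
noncomputable def jA (k Y : Type u) [Field k] : FA k Y →ₐ[k] BA k Y :=
  ev (fun y => letter k (Sum.inl y))

open scoped Classical in
/-- `Θ : y ↦ y` for `y ∈ Y'` and `y ↦ y + z_y` otherwise. -/
noncomputable def thA (k : Type u) [Field k] {Y : Type u} (Y' : Set Y) : FA k Y →ₐ[k] BA k Y :=
  ev (fun y => if y ∈ Y' then letter k (Sum.inl y)
    else letter k (Sum.inl y) + letter k (Sum.inr y))

/-- The Lie subalgebra `G` of `B` generated by `L` and `Z`. -/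
noncomputable def bigL {k Y : Type u} [Field k] (L : LieSubalgebra k (FA k Y)) :
    LieSubalgebra k (BA k Y) :=
  LieSubalgebra.lieSpan k (BA k Y)
    ((jA k Y) '' (L : Set (FA k Y)) ∪ Set.range (fun y => letter k (Sum.inr y)))

/-- What we use about `G ⊆ B`. -/
structure GoodG {k Y : Type u} [Field k] (G : LieSubalgebra k (BA k Y)) : Prop where
  env : EnvPair G
  graded : Graded zd G
  aug : ∀ g ∈ G, g.coeff 1 = 0

end Pool.Agent.A55u
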