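import Pool.Agent.Lib.MP_a55e6f_al.Uni.Defs

/-!
# MP_a55e6f_al (S02584): exact statements of all modules

Module `X` proves `theorem x : XStatement.{u}` (possibly from the statements of other modules as
hypotheses), see `Blueprint.md`. Every file needs
`attribute [local instance 100] LieRing.ofAssociativeRing` (see `Defs.lean`).
-/

set_option autoImplicit false

universe u

open MvPolynomial

attribute [local instance 100] LieRing.ofAssociativeRing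

namespace Pool.Agent.A55u

/-! ## R, PBW and its consequences -/

/-- R -/
def RepStatement : Prop := ∀ (k M : Type u) [Field k] [Monoid M]
  (G : LieSubalgebra k (MonoidAlgebra k M)), EnvPair G →
  ∃ E : MonoidAlgebra k M →ₗ[k] MvPolynomial M k, IsRep G E

/-- SP -/
def SpanStatement : Prop := ∀ (k Q J : Type u) [Field k] [Ring Q] [Algebra k Q] [LinearOrder J]
  (x : J → Q), (∀ i j, x i * x j - x j * x i ∈ Submodule.span k (Set.range x)) →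
  Submodule.span k (Set.range fun s : Multiset J => mono x s)
    = Subalgebra.toSubmodule (Algebra.adjoin k (Set.range x))

/-- PB: PBW basis -/
def PBWStatement : Prop := ∀ (k M : Type u) [Field k] [Monoid M]
  (G : LieSubalgebra k (MonoidAlgebra k M)), EnvPair G →
  ∀ (J : Type u) [LinearOrder J] (b : Module.Basis J k G),
  LinearIndependent k (fun s : Multiset J => mono (fun j => (b j : MonoidAlgebra k M)) s) ∧
  Submodule.span k (Set.range fun s : Multiset J => mono (fun j => (b j : MonoidAlgebra k M)) s)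
    = ⊤

/-- PB: top parts of `E b` -/
def TopStatement : Prop := ∀ (k M : Type u) [Field k] [Monoid M]
  (G : LieSubalgebra k (MonoidAlgebra k M)), EnvPair G →
  ∀ E : MonoidAlgebra k M →ₗ[k] MvPolynomial M k, IsRep G E →
  ∀ (n : ℕ) (b : MonoidAlgebra k M), (E b).totalDegree ≤ n →
  homogeneousComponent n (E b) ∈ Algebra.adjoin k (iota '' (G : Set (MonoidAlgebra k M)))

/-- P0: Lie maps on a Lie subalgebra `C ≤ G` extend to the subalgebra generated by `C`. -/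
def P0Statement : Prop := ∀ (k M : Type u) [Field k] [Monoid M]
  (G : LieSubalgebra k (MonoidAlgebra k M)), EnvPair G →
  ∀ C : LieSubalgebra k (MonoidAlgebra k M), C ≤ G →
  ∀ (Q : Type u) [Ring Q] [Algebra k Q] (f : C →ₗ⁅k⁆ Q),
  ∃ F : Algebra.adjoin k (C : Set (MonoidAlgebra k M)) →ₐ[k] Q,
    ∀ c : C, F ⟨(c : MonoidAlgebra k M), Algebra.subset_adjoin c.2⟩ = f c

/-- P1 -/
def P1Statement : Prop := ∀ (k M : Type u) [Field k] [Monoid M]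
  (G : LieSubalgebra k (MonoidAlgebra k M)), EnvPair G →
  ∀ H : LieSubalgebra k (MonoidAlgebra k M), H ≤ G →
  ∀ g ∈ G, g ∈ Ideal.span (H : Set (MonoidAlgebra k M)) → g ∈ H

/-- P2 -/
def P2Statement : Prop := ∀ (k M : Type u) [Field k] [Monoid M]
  (G : LieSubalgebra k (MonoidAlgebra k M)), EnvPair G →
  ∀ D : LieSubalgebra k (MonoidAlgebra k M), D ≤ G →
  ∀ g ∈ G, g ∈ Algebra.adjoin k (D : Set (MonoidAlgebra k M)) → g ∈ D

/-- P3r: `B` is a free right module over `U_H` with a homogeneous basis, in the form: enough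
homogeneous right linear maps `B → U_H` of degree `-d ≤ 0`. -/
def P3rStatement : Prop := ∀ (k M : Type u) [Field k] [Monoid M] (z : M → ℕ), IsAdd z →
  ∀ (G : LieSubalgebra k (MonoidAlgebra k M)), EnvPair G → Graded z G →
  ∀ H : LieSubalgebra k (MonoidAlgebra k M), H ≤ G → Graded z H →
  ∀ b : MonoidAlgebra k M, b ≠ 0 →
  ∃ (d : ℕ) (π : MonoidAlgebra k M →ₗ[k] MonoidAlgebra k M), π b ≠ 0 ∧
    (∀ x, π x ∈ Algebra.adjoin k (H : Set (MonoidAlgebra k M))) ∧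
    (∀ x, ∀ u ∈ Algebra.adjoin k (H : Set (MonoidAlgebra k M)), π (x * u) = π x * u) ∧
    (∀ n x, Hom z n x → (d ≤ n → Hom z (n - d) (π x)) ∧ (n < d → π x = 0))

/-- P3l: `B` is a free left module over `U_D`. -/
def P3lStatement : Prop := ∀ (k M : Type u) [Field k] [Monoid M]
  (G : LieSubalgebra k (MonoidAlgebra k M)), EnvPair G →
  ∀ D : LieSubalgebra k (MonoidAlgebra k M), D ≤ G →
  ∀ b : MonoidAlgebra k M, b ≠ 0 →
  ∃ (π : MonoidAlgebra k M →ₗ[k] MonoidAlgebra k M), π b ≠ 0 ∧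
    (∀ x, π x ∈ Algebra.adjoin k (D : Set (MonoidAlgebra k M))) ∧
    (∀ x, ∀ u ∈ Algebra.adjoin k (D : Set (MonoidAlgebra k M)), π (u * x) = u * π x)

/-! ## Free Lie algebras and `L → U(L)` in characteristic 0 -/

/-- FL -/
def FreeLieStatement : Prop := ∀ (k S : Type u) [Field k] [CharZero k],
  Function.Injective (FreeLieAlgebra.lift k (letter k : S → FA k S))

/-- UI -/
def UEAInjStatement : Prop := ∀ (k L : Type u) [Field k] [CharZero k] [LieRing L] [LieAlgebra k L],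
  Function.Injective (UniversalEnvelopingAlgebra.ι k : L →ₗ⁅k⁆ UniversalEnvelopingAlgebra k L)

/-! ## Lemma A -/

/-- LA1 -/
def LA1Statement : Prop := ∀ (k M : Type u) [Field k] [Monoid M] (z : M → ℕ), IsAdd z →
  ∀ (G : LieSubalgebra k (MonoidAlgebra k M)), EnvPair G → Graded z G →
  (∀ g ∈ G, g.coeff 1 = 0) →
  ∀ (C : Type u) [LieRing C] [LieAlgebra k C] (Θ j : C →ₗ⁅k⁆ MonoidAlgebra k M) (T F : Set C),
  F.Finite → LieSubalgebra.lieSpan k C (T ∪ F) = ⊤ →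
  (∀ c, comp z 0 (Θ c) = j c) → (∀ c, j c ∈ G) → (∀ t ∈ T, Θ t = j t) → Θ ≠ j →
  ∃ χ : C →ₗ[k] MvPolynomial M k,
    (∀ c d, χ ⁅c, d⁆ = Pi (χ c) (χ d) - Pi (χ d) (χ c)) ∧
    (∀ c, χ c ∈ Algebra.adjoin k (iota '' (G : Set (MonoidAlgebra k M)))) ∧
    (∀ c m, m.sum (fun w i => i * z w) = 0 → (χ c).coeff m = (iota (j c)).coeff m) ∧
    (∀ c, Θ c = j c → χ c = iota (j c)) ∧
    (∃ c ∈ F, χ c ≠ iota (j c))

/-- LA2 -/
def LA2Statement : Prop := ∀ (k M : Type u) [Field k] [CharZero k] [Monoid M] (z y : M → ℕ),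
  IsAdd z → IsAdd y → (∀ w, z w = 0 → y w = 0 → w = 1) →
  ∀ (G : LieSubalgebra k (MonoidAlgebra k M)), Graded z G → (∀ g ∈ G, g.coeff 1 = 0) →
  ∀ (C : Type u) [LieRing C] [LieAlgebra k C] (j : C →ₗ⁅k⁆ MonoidAlgebra k M) (T F : Set C),
  F.Finite → LieSubalgebra.lieSpan k C (T ∪ F) = ⊤ →
  (∀ c, Hom z 0 (j c)) → (∀ c, j c ∈ G) →
  ∀ χ : C →ₗ[k] MvPolynomial M k,
    (∀ c d, χ ⁅c, d⁆ = Pi (χ c) (χ d) - Pi (χ d) (χ c)) →
    (∀ c, χ c ∈ Algebra.adjoin k (iota '' (G : Set (MonoidAlgebra k M)))) →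
    (∀ c m, m.sum (fun w i => i * z w) = 0 → (χ c).coeff m = (iota (j c)).coeff m) →
    (∀ t ∈ T, χ t = iota (j t)) →
    (∃ c ∈ F, χ c ≠ iota (j c)) →
    ∃ ψ : C →ₗ⁅k⁆ MonoidAlgebra k M, (∀ c, ψ c ∈ G) ∧ (∀ c, comp z 0 (ψ c) = j c) ∧
      (∀ c, χ c = iota (j c) → ψ c = j c) ∧ ψ ≠ j

/-- LA: Lemma A -/
def LAStatement : Prop := ∀ (k M : Type u) [Field k] [CharZero k] [Monoid M] (z y : M → ℕ),
  IsAdd z → IsAdd y → (∀ w, z w = 0 → y w = 0 → w = 1) →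
  ∀ (G : LieSubalgebra k (MonoidAlgebra k M)), EnvPair G → Graded z G →
  (∀ g ∈ G, g.coeff 1 = 0) →
  ∀ (C : Type u) [LieRing C] [LieAlgebra k C] (Θ j : C →ₗ⁅k⁆ MonoidAlgebra k M) (T F : Set C),
  F.Finite → LieSubalgebra.lieSpan k C (T ∪ F) = ⊤ →
  (∀ c, comp z 0 (Θ c) = j c) → (∀ c, j c ∈ G) → (∀ t ∈ T, Θ t = j t) → Θ ≠ j →
  ∃ ψ : C →ₗ⁅k⁆ MonoidAlgebra k M, (∀ c, ψ c ∈ G) ∧ (∀ c, comp z 0 (ψ c) = j c) ∧
    (∀ c, Θ c = j c → ψ c = j c) ∧ ψ ≠ j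

/-! ## Combinatorics of free algebras -/

/-- WA: weak algorithm -/
def WAStatement : Prop := ∀ (k J : Type u) [Field k] (m : ℕ) (u q : Fin m → FA k J),
  ∑ i, u i * q i = 0 → (∃ i, u i ≠ 0 ∧ q i ≠ 0) →
  ∃ (i0 : Fin m) (h : Fin m → FA k J), h i0 = 0 ∧ (∀ i, u i = 0 → h i = 0) ∧
    dg (u i0 - ∑ i, u i * h i) < dg (u i0)

/-- LF: independent leading forms -/
def LFStatement : Prop := ∀ (k Y I : Type u) [Field k] (x : I → BA k Y) (v : I → ℕ),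
  (∀ i w, (x i).coeff w ≠ 0 → zd w ≤ v i) → (∀ i, (x i).coeff 1 = 0) →
  LinearIndependent (BA k Y) (fun i => comp zd (v i) (x i)) →
  FreeFam k x ∧ ∀ p : FA k I, Hom zd 0 (ev x p) → p ∈ subA k {i | v i = 0}

/-- The space `W_N`. -/
noncomputable def Wsub {k Y J : Type u} [Field k] {m : ℕ} (τ : J → BA k Y) (x : Fin m → BA k Y)
    (v : Fin m → ℕ) (N : ℕ) : Submodule k (BA k Y) :=
  Submodule.span k ({b | ∃ (j : J) (c : BA k Y), Hom zd N c ∧ b = c * τ j} ∪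
    {b | ∃ (i : Fin m) (c : BA k Y), v i < N ∧ Hom zd (N - v i) c ∧ b = c * x i})

/-- S3: from a left dependence over `B` to one over `U_{D_0}` modulo `W_N`. -/
def S3Statement : Prop := ∀ (k Y : Type u) [Field k] (G : LieSubalgebra k (BA k Y)), GoodG G →
  ∀ (J : Type u) (τ : J → BA k Y), (∀ j, τ j ∈ G) → (∀ j, Hom zd 0 (τ j)) → FreeFam k τ →
  ∀ (m : ℕ) (x : Fin m → BA k Y) (v : Fin m → ℕ), (∀ i, 1 ≤ v i) → (∀ i, x i ∈ G) →
  (∀ i, Hom zd (v i) (x i)) → ¬ LinearIndependent (BA k Y) (Sum.elim τ x) →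
  ∃ N, 1 ≤ N ∧ ∃ u : Fin m → FA k J, (∀ i, v i ≠ N → u i = 0) ∧ (∃ i, u i ≠ 0) ∧
    ∑ i, ev τ (u i) * x i ∈ Wsub τ x v N

/-- S4: the dichotomy. -/
def S4Statement : Prop := ∀ (k Y : Type u) [Field k] (G : LieSubalgebra k (BA k Y)), GoodG G →
  ∀ (J : Type u) (τ : J → BA k Y), (∀ j, τ j ∈ G) → (∀ j, Hom zd 0 (τ j)) → FreeFam k τ →
  ∀ (m : ℕ) (x : Fin m → BA k Y) (v : Fin m → ℕ), (∀ i, 1 ≤ v i) →
  (∀ i, Hom zd (v i) (x i)) → ∀ N, 1 ≤ N →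
  ∀ u : Fin m → FA k J, (∀ i, v i ≠ N → u i = 0) → (∃ i, u i ≠ 0) →
  ∑ i, ev τ (u i) * x i ∈ Wsub τ x v N →
  (∃ i, u i ≠ 0 ∧ x i ∈ Wsub τ x v N) ∨
  ∃ (i0 : Fin m) (h : Fin m → FA k J), h i0 = 0 ∧ (∀ i, u i = 0 → h i = 0) ∧
    dg (u i0 - ∑ i, u i * h i) < dg (u i0)

/-- LL: Lie polynomials in leading forms are leading forms. -/
def LLStatement : Prop := ∀ (k Y C I : Type u) [Field k] [LieRing C] [LieAlgebra k C]
  (ψ : C →ₗ⁅k⁆ BA k Y) (a : I → C) (v : I → ℕ),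
  (∀ i w, (ψ (a i)).coeff w ≠ 0 → zd w ≤ v i) →
  ∀ (N : ℕ) (b : BA k Y), Hom zd N b →
  b ∈ LieSubalgebra.lieSpan k (BA k Y) (Set.range fun i => comp zd (v i) (ψ (a i))) →
  ∃ c ∈ LieSubalgebra.lieSpan k C (Set.range a), comp zd N (ψ c) = b ∧
    ∀ w, (ψ c).coeff w ≠ 0 → zd w ≤ N

/-- AD: the adjoint action and left multiplication agree modulo `B_N τ`. -/
def ADStatement : Prop := ∀ (k Y C J : Type u) [Field k] [LieRing C] [LieAlgebra k C]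
  (ψ : C →ₗ⁅k⁆ BA k Y) (t : J → C), (∀ j, Hom zd 0 (ψ (t j))) →
  ∀ (h : FA k J) (c : C), ∃ c' ∈ LieSubalgebra.lieSpan k C (Set.range t ∪ {c}),
  ∀ N, (∀ w, (ψ c).coeff w ≠ 0 → zd w ≤ N) → (∀ w, (ψ c').coeff w ≠ 0 → zd w ≤ N) ∧
    comp zd N (ψ c') - ev (fun j => ψ (t j)) h * comp zd N (ψ c) ∈
      Submodule.span k {b | ∃ (j : J) (e : BA k Y), Hom zd N e ∧ b = e * ψ (t j)}

/-- IN: minimal generating tuples have left independent leading forms. -/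
def InnerStatement : Prop := ∀ (k Y : Type u) [Field k] (G : LieSubalgebra k (BA k Y)), GoodG G →
  ∀ (C : Type u) [LieRing C] [LieAlgebra k C] (ψ : C →ₗ⁅k⁆ BA k Y), (∀ c, ψ c ∈ G) →
  ∀ (J : Type u) (t : J → C), (∀ j, Hom zd 0 (ψ (t j))) → FreeFam k (fun j => ψ (t j)) →
  ∀ (m : ℕ) (c : Fin m → C), (∀ i, 1 ≤ degOf zd (ψ (c i))) →
  LieSubalgebra.lieSpan k C (Set.range t ∪ Set.range c) = ⊤ →
  (∀ c' : Fin m → C, LieSubalgebra.lieSpan k C (Set.range t ∪ Set.range c') = ⊤ →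
    ∑ i, degOf zd (ψ (c i)) ≤ ∑ i, degOf zd (ψ (c' i))) →
  LinearIndependent (BA k Y)
    (Sum.elim (fun j => ψ (t j)) (fun i => comp zd (degOf zd (ψ (c i))) (ψ (c i))))

/-! ## The double -/

/-- DB -/
def DoubleStatement : Prop := ∀ (k Y : Type u) [Field k] (L : LieSubalgebra k (FA k Y)),
  EnvPair L → (∀ l ∈ L, l.coeff 1 = 0) → GoodG (bigL L) ∧ ∀ l ∈ L, jA k Y l ∈ bigL L

/-- TH -/
def ThetaStatement : Prop := ∀ (k Y : Type u) [Field k] (Y' : Set Y),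
  Function.Injective (jA k Y) ∧ (∀ a, Hom zd 0 (jA k Y a)) ∧
  (∀ a, comp zd 0 (thA k Y' a) = jA k Y a) ∧
  (∀ a, thA k Y' a = jA k Y a ↔ a ∈ subA k Y')

/-! ## Structure of relatively finitely generated subalgebras of `L` -/

/-- ST -/
def StructStatement : Prop := ∀ (k Y : Type u) [Field k] [CharZero k]
  (L : LieSubalgebra k (FA k Y)), EnvPair L → (∀ l ∈ L, l.coeff 1 = 0) →
  ∀ (Y' : Set Y) (T : Set (FA k Y)), T ⊆ L → T ⊆ subA k Y' →
  ∀ (m : ℕ) (c : Fin m → FA k Y), (∀ i, c i ∈ L) →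
  (∀ m' < m, ∀ c' : Fin m' → FA k Y, (∀ i, c' i ∈ L) →
    LieSubalgebra.lieSpan k (FA k Y) (T ∪ Set.range c')
      ≠ LieSubalgebra.lieSpan k (FA k Y) (T ∪ Set.range c)) →
  (∀ m' < m, ∀ c' : Fin m' → FA k Y, (∀ i, c' i ∈ L) →
    ∃ m'' ≤ m', ∃ d : Fin m'' → FA k Y, (∀ i, d i ∈ L) ∧
      LieSubalgebra.lieSpan k (FA k Y) (T ∪ Set.range d)
        = LieSubalgebra.lieSpan k (FA k Y) (T ∪ Set.range c') ∧
      FreeFam k (Sum.elim (Subtype.val : T → FA k Y) d)) →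
  (∃ a ∈ LieSubalgebra.lieSpan k (FA k Y) (T ∪ Set.range c), a ∉ subA k Y') →
  ∃ d : Fin m → FA k Y, (∀ i, d i ∈ L) ∧
    LieSubalgebra.lieSpan k (FA k Y) (T ∪ Set.range d)
      = LieSubalgebra.lieSpan k (FA k Y) (T ∪ Set.range c) ∧
    FreeFam k (Sum.elim (Subtype.val : T → FA k Y) d) ∧
    ∃ m' < m, ∃ e : Fin m' → FA k Y, (∀ i, e i ∈ L) ∧
      LieSubalgebra.lieSpan k (FA k Y) (T ∪ Set.range e)
        ≤ LieSubalgebra.lieSpan k (FA k Y) (T ∪ Set.range c) ∧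
      ∀ a ∈ LieSubalgebra.lieSpan k (FA k Y) (T ∪ Set.range c), a ∈ subA k Y' →
        a ∈ LieSubalgebra.lieSpan k (FA k Y) (T ∪ Set.range e)

/-- SA: relatively finitely generated subalgebras over a good base have free generating sets
extending the base. -/
def SAStatement : Prop := ∀ (k Y : Type u) [Field k] [CharZero k]
  (L : LieSubalgebra k (FA k Y)), EnvPair L → (∀ l ∈ L, l.coeff 1 = 0) →
  ∀ (Y0 : Set Y) (T : Set (FA k Y)), T ⊆ L → T ⊆ subA k Y0 →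
  FreeFam k (Subtype.val : T → FA k Y) →
  (∀ a ∈ L, a ∈ subA k Y0 → a ∈ LieSubalgebra.lieSpan k (FA k Y) T) →
  ∀ F : Set (FA k Y), F.Finite → F ⊆ L →
  ∃ T1 : Set (FA k Y), T ⊆ T1 ∧ T1 ⊆ L ∧ FreeFam k (Subtype.val : T1 → FA k Y) ∧
    LieSubalgebra.lieSpan k (FA k Y) T1 = LieSubalgebra.lieSpan k (FA k Y) (T ∪ F)

/-- SB: intersections with `k<Y'>` are relatively finitely generated. -/
def SBStatement : Prop := ∀ (k Y : Type u) [Field k] [CharZero k]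
  (L : LieSubalgebra k (FA k Y)), EnvPair L → (∀ l ∈ L, l.coeff 1 = 0) →
  ∀ (Y0 : Set Y) (T : Set (FA k Y)), T ⊆ L → T ⊆ subA k Y0 →
  FreeFam k (Subtype.val : T → FA k Y) →
  (∀ a ∈ L, a ∈ subA k Y0 → a ∈ LieSubalgebra.lieSpan k (FA k Y) T) →
  ∀ Y' : Set Y, Y0 ⊆ Y' →
  ∀ F : Set (FA k Y), F.Finite → F ⊆ L →
  ∃ F' : Set (FA k Y), F'.Finite ∧ F' ⊆ L ∧
    ∀ a, a ∈ LieSubalgebra.lieSpan k (FA k Y) (T ∪ F') ↔
      (a ∈ LieSubalgebra.lieSpan k (FA k Y) (T ∪ F) ∧ a ∈ subA k Y')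

/-- ZO: Zorn. -/
def ZornStatement : Prop := ∀ (k Y : Type u) [Field k] [CharZero k]
  (L : LieSubalgebra k (FA k Y)), EnvPair L → (∀ l ∈ L, l.coeff 1 = 0) →
  ∃ T : Set (FA k Y), T ⊆ L ∧ FreeFam k (Subtype.val : T → FA k Y) ∧
    LieSubalgebra.lieSpan k (FA k Y) T = L

/-- FI: the final statement S02584. -/
def FinalStatement : Prop :=
    ¬ (∃ (K : Type u) (_ : Field K) (_ : CharZero K) (L : Type u) (_ : LieRing L) (_ : LieAlgebra K L),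
      (¬ ∃ (X : Type u), Nonempty (L ≃ₗ⁅K⁆ FreeLieAlgebra K X)) ∧
      ∃ (Y : Type u), Nonempty (UniversalEnvelopingAlgebra K L ≃ₐ[K] FreeAlgebra K Y))

end Pool.Agent.A55u
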