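import Mathlib

/-!
# MP_a55e6f_al: isomorphic free algebras have equipotent sets of variables

For a field `k`, sets `X`, `Y` and an isomorphism `k⟨X⟩ ≃ k⟨Y⟩` of `k`-algebras there is a
bijection between `X` and `Y`. (helper14)
-/

set_option autoImplicit false

namespace Pool.Agent.A55u.Rank

universe u v w

variable (k : Type u) [Field k]

/-- the algebra of pairs `(a, m)` with `a ∈ k` and `m ∈ X →₀ k`, with `m * m' = 0`. -/
abbrev Dual (X : Type v) := TrivSqZeroExt k (X →₀ k)

/-- `x ↦ (a x, e_x)` -/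
noncomputable def jet {X : Type v} (a : X → k) : FreeAlgebra k X →ₐ[k] Dual k X :=
  FreeAlgebra.lift k fun x => TrivSqZeroExt.inl (a x) + TrivSqZeroExt.inr (Finsupp.single x 1)

/-- The square zero extension map induced by a linear map. -/
noncomputable def sq {X : Type v} {Y : Type w} (f : (X →₀ k) →ₗ[k] (Y →₀ k)) :
    Dual k X →ₐ[k] Dual k Y :=
  TrivSqZeroExt.map f

theorem exists_linear {X : Type v} {Y : Type w} (e : FreeAlgebra k X ≃ₐ[k] FreeAlgebra k Y)
    (a : X → k) (b : Y → k)
    (hab : ∀ y, (TrivSqZeroExt.fstHom k k (X →₀ k)).comp (jet k a) (e.symm (FreeAlgebra.ι k y))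
      = b y) :
    ∃ f : (Y →₀ k) →ₗ[k] (X →₀ k),
      (jet k a).comp (e.symm : FreeAlgebra k Y →ₐ[k] FreeAlgebra k X) = (sq k f).comp (jet k b) := by
  refine ⟨Finsupp.linearCombination k fun y => (jet k a (e.symm (FreeAlgebra.ι k y))).snd, ?_⟩
  ext y
  · simp only [Function.comp_apply, AlgHom.coe_comp, AlgHom.coe_coe, jet, sq,
      FreeAlgebra.lift_ι_apply, map_add, TrivSqZeroExt.map_inl, TrivSqZeroExt.map_inr]
    have := hab y
    simp only [AlgHom.coe_comp, Function.comp_apply, TrivSqZeroExt.fstHom_apply, jet] at this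
    simp [this]
  · simp [jet, sq]

theorem fst_jet {X : Type v} {Y : Type w} (e : FreeAlgebra k X ≃ₐ[k] FreeAlgebra k Y) (b : Y → k)
    (z : FreeAlgebra k X) :
    (jet k (fun x => (jet k b (e (FreeAlgebra.ι k x))).fst) z).fst = (jet k b (e z)).fst := by
  have h : (TrivSqZeroExt.fstHom k k (X →₀ k)).comp
        (jet k (fun x => (jet k b (e (FreeAlgebra.ι k x))).fst))
      = ((TrivSqZeroExt.fstHom k k (Y →₀ k)).comp (jet k b)).comp
        (e : FreeAlgebra k X →ₐ[k] FreeAlgebra k Y) := by
    ext x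
    simp [jet]
  exact DFunLike.congr_fun h z

/-- Free algebras on `X` and `Y` are isomorphic only if `X` and `Y` are equipotent. -/
theorem equiv_of_algEquiv {X : Type v} {Y : Type w} (e : FreeAlgebra k X ≃ₐ[k] FreeAlgebra k Y) :
    Nonempty (X ≃ Y) := by
  let b : Y → k := fun _ => 0
  let a : X → k := fun x => (jet k b (e (FreeAlgebra.ι k x))).fst
  obtain ⟨f, hf⟩ := exists_linear k e a b (fun y => by
    show (jet k a (e.symm (FreeAlgebra.ι k y))).fst = b y
    rw [fst_jet k e b, AlgEquiv.apply_symm_apply]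
    simp [jet])
  obtain ⟨g, hg⟩ := exists_linear k e.symm b a (fun x => by
    show (jet k b (e.symm.symm (FreeAlgebra.ι k x))).fst = a x
    rfl)
  have hf' : ∀ z, jet k a (e.symm z) = sq k f (jet k b z) := fun z => DFunLike.congr_fun hf z
  have hg' : ∀ z, jet k b (e z) = sq k g (jet k a z) := fun z => DFunLike.congr_fun hg z
  have h1 : ∀ y, g (f (Finsupp.single y 1)) = Finsupp.single y 1 := by
    intro y
    have h2 : jet k b (FreeAlgebra.ι k y) = sq k g (sq k f (jet k b (FreeAlgebra.ι k y))) := by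
      rw [← hf', ← hg', AlgEquiv.apply_symm_apply]
    have h3 := congrArg TrivSqZeroExt.snd h2
    simpa [jet, sq] using h3.symm
  have h1' : ∀ x, f (g (Finsupp.single x 1)) = Finsupp.single x 1 := by
    intro x
    have h2 : jet k a (FreeAlgebra.ι k x) = sq k f (sq k g (jet k a (FreeAlgebra.ι k x))) := by
      rw [← hg', ← hf', AlgEquiv.symm_apply_apply]
    have h3 := congrArg TrivSqZeroExt.snd h2
    simpa [jet, sq] using h3.symm
  let E : (X →₀ k) ≃ₗ[k] (Y →₀ k) := LinearEquiv.ofLinear g f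
    (by ext y : 2; simp [h1]) (by ext x : 2; simp [h1'])
  exact ⟨((Finsupp.basisSingleOne : Module.Basis X k (X →₀ k)).map E).indexEquiv
    (Finsupp.basisSingleOne : Module.Basis Y k (Y →₀ k))⟩

end Pool.Agent.A55u.Rank
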