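import Mathlib

/-!
# MP_a55e6f_al: change of universe and of the base field along an isomorphism (helper14)

For an isomorphism `σ : k ≃+* K` of fields, a semilinear isomorphism `L ≃ M` of a Lie algebra over
`k` with one over `K` and a bijection `X ≃ Y`, the enveloping algebras, the free algebras and the
free Lie algebras correspond to each other.
-/

set_option autoImplicit false

attribute [local instance 100] LieRing.ofAssociativeRing

namespace Pool.Agent.A55u.Transfer

open UniversalEnvelopingAlgebra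

section hom
variable {k K : Type*} [Field k] [Field K] (σ : k →+* K)

/-- An algebra over `K` is an algebra over `k`. -/
noncomputable abbrev resAlg (A : Type*) [Ring A] [Algebra K A] : Algebra k A :=
  ((algebraMap K A).comp σ).toAlgebra' fun c x => Algebra.commutes (σ c) x

theorem exists_uea {L M : Type*} [LieRing L] [LieAlgebra k L] [LieRing M] [LieAlgebra K M]
    (e : L → M) (hadd : ∀ x y, e (x + y) = e x + e y)
    (hsmul : ∀ (c : k) x, e (c • x) = σ c • e x) (hlie : ∀ x y, e ⁅x, y⁆ = ⁅e x, e y⁆) :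
    ∃ F : UniversalEnvelopingAlgebra k L →+* UniversalEnvelopingAlgebra K M,
      (∀ x, F (ι k x) = ι K (e x)) ∧ ∀ c, F (algebraMap k _ c) = algebraMap K _ (σ c) := by
  letI : Algebra k (UniversalEnvelopingAlgebra K M) := resAlg σ _
  let f : L →ₗ⁅k⁆ UniversalEnvelopingAlgebra K M :=
    { toFun := fun x => ι K (e x)
      map_add' := fun x y => by rw [hadd, map_add]
      map_smul' := fun c x => by
        rw [hsmul, map_smul, Algebra.smul_def, RingHom.id_apply, Algebra.smul_def]
        rfl
      map_lie' := fun {x y} => by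
        show ι K (e ⁅x, y⁆) = ⁅ι K (e x), ι K (e y)⁆
        rw [hlie, LieHom.map_lie] }
  refine ⟨(UniversalEnvelopingAlgebra.lift k f).toRingHom, fun x => ?_, fun c => ?_⟩
  · exact UniversalEnvelopingAlgebra.lift_ι_apply k f x
  · exact (UniversalEnvelopingAlgebra.lift k f).commutes c

theorem exists_free {X Y : Type*} (e : X → Y) :
    ∃ F : FreeAlgebra k X →+* FreeAlgebra K Y,
      (∀ x, F (FreeAlgebra.ι k x) = FreeAlgebra.ι K (e x)) ∧
        ∀ c, F (algebraMap k _ c) = algebraMap K _ (σ c) := by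
  letI : Algebra k (FreeAlgebra K Y) := resAlg σ _
  refine ⟨(FreeAlgebra.lift k fun x => FreeAlgebra.ι K (e x)).toRingHom, fun x => ?_, fun c => ?_⟩
  · exact FreeAlgebra.lift_ι_apply _ x
  · exact (FreeAlgebra.lift k fun x => FreeAlgebra.ι K (e x)).commutes c

theorem exists_freeLie {X M : Type*} [LieRing M] [LieAlgebra K M] (e : X → M) :
    ∃ F : FreeLieAlgebra k X → M,
      (∀ x, F (FreeLieAlgebra.of k x) = e x) ∧ (∀ x y, F (x + y) = F x + F y) ∧
        (∀ (c : k) x, F (c • x) = σ c • F x) ∧ ∀ x y, F ⁅x, y⁆ = ⁅F x, F y⁆ := by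
  letI : Module k M := Module.compHom M σ
  letI : LieAlgebra k M := { lie_smul := fun c x y => lie_smul (σ c) x y }
  let F : FreeLieAlgebra k X →ₗ⁅k⁆ M := FreeLieAlgebra.lift k e
  exact ⟨F, fun x => FreeLieAlgebra.lift_of_apply e x, fun x y => map_add F x y,
    fun c x => map_smul F c x, fun x y => LieHom.map_lie F x y⟩

end hom

section iso
variable {k K : Type*} [Field k] [Field K] (σ : k ≃+* K)

/-- A ring endomorphism of `U(L)` fixing scalars and `L` is the identity. -/
theorem uea_ext {L : Type*} [LieRing L] [LieAlgebra k L]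
    (F : UniversalEnvelopingAlgebra k L →+* UniversalEnvelopingAlgebra k L)
    (h1 : ∀ x, F (ι k x) = ι k x) (h2 : ∀ c, F (algebraMap k _ c) = algebraMap k _ c) (u) :
    F u = u := by
  let F' : UniversalEnvelopingAlgebra k L →ₐ[k] UniversalEnvelopingAlgebra k L :=
    { F with commutes' := h2 }
  have h : F' = AlgHom.id k _ := by
    apply UniversalEnvelopingAlgebra.hom_ext
    ext x
    exact h1 x
  exact DFunLike.congr_fun h u

theorem free_ext {X : Type*} (F : FreeAlgebra k X →+* FreeAlgebra k X)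
    (h1 : ∀ x, F (FreeAlgebra.ι k x) = FreeAlgebra.ι k x)
    (h2 : ∀ c, F (algebraMap k _ c) = algebraMap k _ c) (u) : F u = u := by
  let F' : FreeAlgebra k X →ₐ[k] FreeAlgebra k X := { F with commutes' := h2 }
  have h : F' = AlgHom.id k _ := by
    apply FreeAlgebra.hom_ext
    ext x
    exact h1 x
  exact DFunLike.congr_fun h u

theorem freeLie_ext {X : Type*} (F : FreeLieAlgebra k X → FreeLieAlgebra k X)
    (h1 : ∀ x, F (FreeLieAlgebra.of k x) = FreeLieAlgebra.of k x)
    (h2 : ∀ x y, F (x + y) = F x + F y) (h3 : ∀ (c : k) x, F (c • x) = c • F x)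
    (h4 : ∀ x y, F ⁅x, y⁆ = ⁅F x, F y⁆) (u) : F u = u := by
  let F' : FreeLieAlgebra k X →ₗ⁅k⁆ FreeLieAlgebra k X :=
    { toFun := F, map_add' := h2, map_smul' := h3, map_lie' := fun {x y} => h4 x y }
  have h : F' = LieHom.id := FreeLieAlgebra.hom_ext h1
  exact DFunLike.congr_fun h u

/-- The enveloping algebras of semilinearly isomorphic Lie algebras. -/
theorem uea_equiv {L M : Type*} [LieRing L] [LieAlgebra k L] [LieRing M] [LieAlgebra K M]
    (e : L ≃ M) (hadd : ∀ x y, e (x + y) = e x + e y)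
    (hsmul : ∀ (c : k) x, e (c • x) = σ c • e x) (hlie : ∀ x y, e ⁅x, y⁆ = ⁅e x, e y⁆) :
    ∃ F : UniversalEnvelopingAlgebra k L ≃+* UniversalEnvelopingAlgebra K M,
      ∀ c, F (algebraMap k _ c) = algebraMap K _ (σ c) := by
  obtain ⟨F, hF1, hF2⟩ := exists_uea (σ : k →+* K) e hadd hsmul hlie
  obtain ⟨G, hG1, hG2⟩ := exists_uea (σ.symm : K →+* k) e.symm
    (fun x y => e.injective (by rw [hadd]; simp))
    (fun c x => e.injective (by rw [hsmul]; simp))
    (fun x y => e.injective (by rw [hlie]; simp))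
  refine ⟨RingEquiv.ofRingHom F G ?_ ?_, hF2⟩
  · ext u
    refine uea_ext (F.comp G) (fun x => ?_) (fun c => ?_) u
    · rw [RingHom.comp_apply, hG1, hF1, Equiv.apply_symm_apply]
    · rw [RingHom.comp_apply, hG2, hF2]
      simp
  · ext u
    refine uea_ext (G.comp F) (fun x => ?_) (fun c => ?_) u
    · rw [RingHom.comp_apply, hF1, hG1, Equiv.symm_apply_apply]
    · rw [RingHom.comp_apply, hF2, hG2]
      simp

/-- Free algebras over isomorphic fields. -/
theorem free_equiv {X Y : Type*} (e : X ≃ Y) :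
    ∃ F : FreeAlgebra k X ≃+* FreeAlgebra K Y,
      ∀ c, F (algebraMap k _ c) = algebraMap K _ (σ c) := by
  obtain ⟨F, hF1, hF2⟩ := exists_free (σ : k →+* K) e
  obtain ⟨G, hG1, hG2⟩ := exists_free (σ.symm : K →+* k) e.symm
  refine ⟨RingEquiv.ofRingHom F G ?_ ?_, hF2⟩
  · ext u
    refine free_ext (F.comp G) (fun x => ?_) (fun c => ?_) u
    · rw [RingHom.comp_apply, hG1, hF1, Equiv.apply_symm_apply]
    · rw [RingHom.comp_apply, hG2, hF2]
      simp
  · ext u
    refine free_ext (G.comp F) (fun x => ?_) (fun c => ?_) u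
    · rw [RingHom.comp_apply, hF1, hG1, Equiv.symm_apply_apply]
    · rw [RingHom.comp_apply, hF2, hG2]
      simp

end iso

end Pool.Agent.A55u.Transfer
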