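import Pool.Agent.Lib.MP_a55e6f_al.Uni.Main
import Pool.Agent.Lib.MP_a55e6f_al.Uni.Rank
import Pool.Agent.Lib.MP_a55e6f_al.Uni.Transfer

/-!
# MP_a55e6f_al: `U(L) ≃ k⟨Y⟩` if and only if `L ≃ FreeLieAlgebra k Y` (helper14)
-/

set_option autoImplicit false

attribute [local instance 100] LieRing.ofAssociativeRing

namespace Pool.Agent.A55u.Iff

open UniversalEnvelopingAlgebra Transfer

universe u v w

/-- Isomorphic Lie algebras have isomorphic enveloping algebras. -/
theorem uea_congr {k : Type u} [Field k] {L : Type v} {M : Type w} [LieRing L] [LieAlgebra k L]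
    [LieRing M] [LieAlgebra k M] (e : L ≃ₗ⁅k⁆ M) :
    Nonempty (UniversalEnvelopingAlgebra k L ≃ₐ[k] UniversalEnvelopingAlgebra k M) := by
  obtain ⟨F, hF⟩ := uea_equiv (RingEquiv.refl k) (L := L) (M := M) e.toLinearEquiv.toEquiv
    (fun x y => map_add e x y) (fun c x => map_smul e c x) (fun x y => LieEquiv.map_lie e x y)
  exact ⟨AlgEquiv.ofRingEquiv (f := F) hF⟩

theorem freeAlgebra_congr {k : Type u} [Field k] {X : Type v} {Y : Type w} (e : X ≃ Y) :
    Nonempty (FreeAlgebra k X ≃ₐ[k] FreeAlgebra k Y) := by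
  obtain ⟨F, hF⟩ := free_equiv (RingEquiv.refl k) e
  exact ⟨AlgEquiv.ofRingEquiv (f := F) hF⟩

/-! ### The Lie algebra `ULift L` over `ULift k` -/

/-- the Lie ring `ULift L` -/
@[instance_reducible]
def lieRingULift (L : Type v) [LieRing L] : LieRing (ULift.{w} L) where
  bracket x y := ⟨⁅x.down, y.down⁆⟩
  add_lie x y z := ULift.ext _ _ (add_lie x.down y.down z.down)
  lie_add x y z := ULift.ext _ _ (lie_add x.down y.down z.down)
  lie_self x := ULift.ext _ _ (lie_self x.down)
  leibniz_lie x y z := ULift.ext _ _ (leibniz_lie x.down y.down z.down)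

attribute [local instance] lieRingULift

/-- `ULift L` as a Lie algebra over `ULift k`. -/
@[instance_reducible]
def lieAlgebraULift (k : Type u) [Field k] (L : Type v) [LieRing L] [LieAlgebra k L] :
    LieAlgebra (ULift.{max v w} k) (ULift.{max u w} L) :=
  { ULift.module (R := k) (M := ULift.{max u w} L) with
    lie_smul := fun c x y => ULift.ext _ _ (LieAlgebra.lie_smul c.down x.down y.down) }

attribute [local instance] lieAlgebraULift

theorem charZero_uLift (k : Type u) [Field k] [CharZero k] : CharZero (ULift.{w} k) :=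
  ⟨fun m n h => by
    have h1 := congrArg ULift.down h
    simpa using h1⟩

/-- If `U(L)` is isomorphic to `k⟨Y⟩` then `L` is isomorphic to the free Lie algebra on `Y`. -/
theorem free_of_uea (k : Type u) [Field k] [CharZero k] (L : Type v) [LieRing L] [LieAlgebra k L]
    (Y : Type w) (Φ : UniversalEnvelopingAlgebra k L ≃ₐ[k] FreeAlgebra k Y) :
    Nonempty (L ≃ₗ⁅k⁆ FreeLieAlgebra k Y) := by
  have hK : CharZero (ULift.{max v w} k) := charZero_uLift k
  let σ : k ≃+* ULift.{max v w} k := ULift.ringEquiv.symm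
  obtain ⟨F, hF⟩ := uea_equiv σ (L := L) (M := ULift.{max u w} L) Equiv.ulift.symm
    (fun x y => rfl) (fun c x => rfl) (fun x y => rfl)
  obtain ⟨G, hG⟩ := free_equiv σ (X := Y) (Y := ULift.{max u v} Y) Equiv.ulift.symm
  have hFs : ∀ c, F.symm (algebraMap _ _ (σ c)) = algebraMap k _ c := fun c => by
    rw [← hF, RingEquiv.symm_apply_apply]
  let Φ' : UniversalEnvelopingAlgebra (ULift.{max v w} k) (ULift.{max u w} L) ≃ₐ[ULift.{max v w} k]
      FreeAlgebra (ULift.{max v w} k) (ULift.{max u v} Y) :=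
    AlgEquiv.ofRingEquiv (f := (F.symm.trans Φ.toRingEquiv).trans G) (by
      intro c
      obtain ⟨c, rfl⟩ := σ.surjective c
      rw [RingEquiv.trans_apply, RingEquiv.trans_apply, hFs]
      show G (Φ (algebraMap k _ c)) = _
      rw [AlgEquiv.commutes, hG])
  -- the main theorem in the universe `max u v w`
  have hX : ∃ X : Type (max u v w), Nonempty (ULift.{max u w} L ≃ₗ⁅ULift.{max v w} k⁆
      FreeLieAlgebra (ULift.{max v w} k) X) := by
    by_contra hcon
    exact main.{max u v w} ⟨ULift.{max v w} k, inferInstance, hK, ULift.{max u w} L,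
      lieRingULift L, lieAlgebraULift k L, hcon, ULift.{max u v} Y, ⟨Φ'⟩⟩
  obtain ⟨X, ⟨E⟩⟩ := hX
  -- the rank
  obtain ⟨e1⟩ := uea_congr E
  obtain ⟨r⟩ := Rank.equiv_of_algEquiv (ULift.{max v w} k)
    (Φ'.symm.trans (e1.trans (FreeLieAlgebra.universalEnvelopingEquivFreeAlgebra _ X)))
  let x : Y ≃ X := Equiv.ulift.symm.trans r
  -- the two maps
  let Φ1 : FreeLieAlgebra k Y →ₗ⁅k⁆ L :=
    FreeLieAlgebra.lift k fun y => (E.symm (FreeLieAlgebra.of _ (x y))).down
  obtain ⟨H, hH1, hH2, hH3, hH4⟩ := exists_freeLie (σ.symm : ULift.{max v w} k →+* k)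
    (X := X) (M := FreeLieAlgebra k Y) (fun z => FreeLieAlgebra.of k (x.symm z))
  let Ψ : L → FreeLieAlgebra k Y := fun l => H (E ⟨l⟩)
  have hΨadd : ∀ a b, Ψ (a + b) = Ψ a + Ψ b := fun a b => by
    show H (E ⟨a + b⟩) = _
    rw [← hH2, ← map_add]
    rfl
  have hΨsmul : ∀ (c : k) a, Ψ (c • a) = c • Ψ a := fun c a => by
    have h := hH3 (σ c) (E ⟨a⟩)
    rw [← map_smul] at h
    exact h
  have hΨlie : ∀ a b, Ψ ⁅a, b⁆ = ⁅Ψ a, Ψ b⁆ := fun a b => by
    have h := hH4 (E ⟨a⟩) (E ⟨b⟩)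
    rw [← LieEquiv.map_lie] at h
    exact h
  have h12 : ∀ z, Ψ (Φ1 z) = z := fun z => by
    refine freeLie_ext (fun z => Ψ (Φ1 z)) (fun y => ?_) (fun a b => ?_) (fun c a => ?_)
      (fun a b => ?_) z
    · show H (E ⟨Φ1 (FreeLieAlgebra.of k y)⟩) = _
      rw [FreeLieAlgebra.lift_of_apply]
      show H (E (E.symm (FreeLieAlgebra.of _ (x y)))) = _
      rw [LieEquiv.apply_symm_apply, hH1, Equiv.symm_apply_apply]
    · show Ψ (Φ1 (a + b)) = _
      rw [map_add, hΨadd]
    · show Ψ (Φ1 (c • a)) = _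
      rw [map_smul, hΨsmul]
    · show Ψ (Φ1 ⁅a, b⁆) = _
      rw [LieHom.map_lie, hΨlie]
  have h21 : ∀ l, Φ1 (Ψ l) = l := fun l => by
    let Φ2 : FreeLieAlgebra (ULift.{max v w} k) X →ₗ⁅ULift.{max v w} k⁆ ULift.{max u w} L :=
      { toFun := fun z => ⟨Φ1 (H z)⟩
        map_add' := fun a b => ULift.ext _ _ (by
          show Φ1 (H (a + b)) = _
          rw [hH2, map_add]
          rfl)
        map_smul' := fun c a => ULift.ext _ _ ((congrArg Φ1 (hH3 c a)).trans (map_smul Φ1 _ _))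
        map_lie' := fun {a b} => ULift.ext _ _ (by
          show Φ1 (H ⁅a, b⁆) = _
          rw [hH4, LieHom.map_lie]
          rfl) }
    have h : Φ2 = (E.symm : _ →ₗ⁅ULift.{max v w} k⁆ _) := by
      refine FreeLieAlgebra.hom_ext fun z => ULift.ext _ _ ?_
      show Φ1 (H (FreeLieAlgebra.of _ z)) = (E.symm (FreeLieAlgebra.of _ z)).down
      rw [hH1, FreeLieAlgebra.lift_of_apply, Equiv.apply_symm_apply]
    have h1 : Φ2 (E (ULift.up l)) = E.symm (E (ULift.up l)) :=
      DFunLike.congr_fun h (E (ULift.up l))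
    rw [LieEquiv.symm_apply_apply] at h1
    exact congrArg ULift.down h1
  exact ⟨{ toFun := Ψ
           map_add' := hΨadd
           map_smul' := hΨsmul
           map_lie' := fun {a b} => hΨlie a b
           invFun := Φ1
           left_inv := h21
           right_inv := h12 }⟩

/-- **Main theorem.** -/
theorem iff (k : Type u) [Field k] [CharZero k] (L : Type v) [LieRing L] [LieAlgebra k L]
    (Y : Type w) :
    Nonempty (UniversalEnvelopingAlgebra k L ≃ₐ[k] FreeAlgebra k Y) ↔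
      Nonempty (L ≃ₗ⁅k⁆ FreeLieAlgebra k Y) := by
  constructor
  · rintro ⟨Φ⟩
    exact free_of_uea k L Y Φ
  · rintro ⟨e⟩
    obtain ⟨f⟩ := uea_congr e
    exact ⟨f.trans (FreeLieAlgebra.universalEnvelopingEquivFreeAlgebra k Y)⟩

end Pool.Agent.A55u.Iff
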